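import Pool.Agent.helper24.RB.Spec
import Pool.Agent.helper18.LE.BDX

/-!
# Theorem RB (MP_baa4d7_al), row BUX: the number of the characters fixed by the Galois automorphism, cut off by a union of cosets of a subgroup
-/

set_option autoImplicit false

namespace Pool.Agent.LE

open scoped Pointwise

open Pool.Agent.helper58.DC Pool.Agent.DI Pool.Agent.GR Pool.Agent.OB Pool.Agent.DR Pool.Agent.FI Pool.Agent.FI3 Pool.Agent.FI4 Pool.Agent.FI4C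

/-- PUH for a group with commuting elements -/
theorem BUX_puh (hPUH : PUH_stmt) {D : Type} [Group D] [Finite D] (com : ∀ a b : D, a * b = b * a) (K : Subgroup D)
    (N : ℕ) (H : Fin N → Subgroup D) (h : ∀ i, K ≤ H i) :
    LGC ({u : D | ∃ i, u ∈ H i}ᶜ.indicator (fun _ => (K.index : ℂ))) := by
  let _ : CommGroup D := { (inferInstance : Group D) with mul_comm := com }
  exact hPUH D K N H h

/-- products -/
theorem BUX_mul (hLCG : LCG_stmt) {D : Type} [Group D] [Finite D] (com : ∀ a b : D, a * b = b * a) {f g : D → ℂ}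
    (hf : LGC f) (hg : LGC g) : LGC (fun u => f u * g u) := by
  let _ : CommGroup D := { (inferInstance : Group D) with mul_comm := com }
  obtain ⟨-, -, -, -, -, l6, -, -, -⟩ := hLCG D
  exact l6 f g hf hg

/-- the subgroup of the elements whose commutator with `t` is in `K` -/
def BUX_H {G : Type} [Group G] (D K : Subgroup G) (com : ∀ a ∈ D, ∀ b ∈ D, a * b = b * a) (hKD : K ≤ D) (t : G)
    (ht : ∀ d ∈ D, t * d * t⁻¹ ∈ D) : Subgroup D where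
  carrier := {u | t * (u : G) * t⁻¹ * (u : G)⁻¹ ∈ K}
  one_mem' := by
    show t * ((1 : D) : G) * t⁻¹ * ((1 : D) : G)⁻¹ ∈ K
    have : t * ((1 : D) : G) * t⁻¹ * ((1 : D) : G)⁻¹ = 1 := by
      rw [Subgroup.coe_one]; group
    rw [this]
    exact K.one_mem
  mul_mem' := by
    intro a b ha hb
    change t * (a : G) * t⁻¹ * (a : G)⁻¹ ∈ K at ha
    change t * (b : G) * t⁻¹ * (b : G)⁻¹ ∈ K at hb
    show t * ((a * b : D) : G) * t⁻¹ * ((a * b : D) : G)⁻¹ ∈ K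
    have h1 : t * ((a * b : D) : G) * t⁻¹ * ((a * b : D) : G)⁻¹ =
        (t * (a : G) * t⁻¹ * (a : G)⁻¹) * (t * (b : G) * t⁻¹ * (b : G)⁻¹) := by
      rw [Subgroup.coe_mul]
      have h2 : (a : G)⁻¹ * (t * (b : G) * t⁻¹ * (b : G)⁻¹) = (t * (b : G) * t⁻¹ * (b : G)⁻¹) * (a : G)⁻¹ :=
        com _ (D.inv_mem a.2) _ (hKD hb)
      have h3 : (a : G) * b = b * a := com _ a.2 _ b.2
      calc t * ((a : G) * b) * t⁻¹ * ((a : G) * b)⁻¹ = t * (a : G) * t⁻¹ * (t * (b : G) * t⁻¹ * (b : G)⁻¹) * (a : G)⁻¹ := by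
            group
        _ = t * (a : G) * t⁻¹ * ((t * (b : G) * t⁻¹ * (b : G)⁻¹) * (a : G)⁻¹) := by group
        _ = t * (a : G) * t⁻¹ * ((a : G)⁻¹ * (t * (b : G) * t⁻¹ * (b : G)⁻¹)) := by rw [h2]
        _ = _ := by group
    rw [h1]
    exact K.mul_mem ha hb
  inv_mem' := by
    intro a ha
    change t * (a : G) * t⁻¹ * (a : G)⁻¹ ∈ K at ha
    show t * ((a⁻¹ : D) : G) * t⁻¹ * ((a⁻¹ : D) : G)⁻¹ ∈ K
    have h1 : t * ((a⁻¹ : D) : G) * t⁻¹ * ((a⁻¹ : D) : G)⁻¹ = (t * (a : G) * t⁻¹ * (a : G)⁻¹)⁻¹ := by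
      rw [Subgroup.coe_inv]
      have h2 : (t * (a : G) * t⁻¹)⁻¹ * (a : G) = (a : G) * (t * (a : G) * t⁻¹)⁻¹ :=
        com _ (D.inv_mem (ht _ a.2)) _ a.2
      calc t * (a : G)⁻¹ * t⁻¹ * ((a : G)⁻¹)⁻¹ = (t * (a : G) * t⁻¹)⁻¹ * (a : G) := by group
        _ = (a : G) * (t * (a : G) * t⁻¹)⁻¹ := h2
        _ = _ := by group
    rw [h1]
    exact K.inv_mem ha

/-- the bound -/
theorem BUX_main (hPUH : PUH_stmt) (hDEC : DEC_stmt) (hSGL : SGL_stmt) (hDP2 : DP2_stmt) (hBES : BES4_stmt) (hNZ3 : NZ3_stmt)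
    (hGRG : GRG_stmt) (hRGF : RGF_stmt) (hLCG : LCG_stmt) (hTPR : FI.TPR_stmt)
    (p : ℕ) (M : Ideal (integralClosure ℤ ℂ)) (hM : Setup p M) (hp : p ≠ 2) (G : Type) [Group G] [Finite G]
    (D : Subgroup G) (x : G) (θ χ : G → ℂ) (h : LoA p M D x θ χ) (K : Subgroup G) (hKD : K ≤ D)
    (hKT : ∀ t ∈ TT M D θ, ∀ k ∈ K, t * k * t⁻¹ ∈ K) (u₀ : G) (hu₀ : u₀ ∈ D)
    (hu : ∀ t ∈ TT M D θ, t * u₀ * t⁻¹ * u₀⁻¹ ∈ K → t ∈ cz D) (m : ℕ) (hm : Gm2 p (Nat.card G) m) :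
    {ψ : G → ℂ | ψ ∈ Blk M χ (⊤ : Subgroup G) ∧ PR m ψ}.ncard ≤
      4 * (K.relIndex D ^ 2 * iI M D θ) * {u : G | u ∈ D ∧ orderOf u ≤ 4 * p * (K.relIndex D ^ 2 * iI M D θ)}.ncard := by
  classical
  have hR := h.rt
  have hcz := BDX_cz G
  have hpg : IsPGroup p D := hR.dfa.pgrp
  have hcom : ∀ a b : D, a * b = b * a := fun a b => Subtype.ext (hR.com a a.2 b b.2)
  obtain ⟨-, r2, -, -, r5, -⟩ := hRGF p M hM.pr G D θ hR.th hpg hR.com
  obtain ⟨-, h2, -, -, -⟩ := hTPR p M hM G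
  have hBl : Blk M χ (⊤ : Subgroup G) = Bl M (⊤ : Subgroup G) θ := by
    have h3 : SB M (⊤ : Subgroup G) θ χ := (h2 θ χ).1 hR.ind
    ext ψ
    constructor
    · rintro ⟨h4, h5⟩
      exact ⟨h4, ((h2 ψ χ).1 h5).trans h3.symm⟩
    · rintro ⟨h4, h5⟩
      exact ⟨h4, (h2 ψ χ).2 (h5.trans h3)⟩
  have hBES' := hBES p M hM hp G D x θ χ h
  rw [hBl] at hBES' ⊢
  have hfin : (Bl M (⊤ : Subgroup G) θ).Finite := (IrrOn_fin _).subset fun ψ hψ => hψ.1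
  obtain ⟨ε, e1, e2, e3⟩ := hSGL p M hM hp G D x θ χ h
  have hXf : Finite {ψ : G → ℂ // ψ ∈ Bl M (⊤ : Subgroup G) θ ∧ PR m ψ} :=
    (hfin.subset fun ψ hψ => hψ.1 : {ψ : G → ℂ | ψ ∈ Bl M (⊤ : Subgroup G) θ ∧ PR m ψ}.Finite)
  let _ : Fintype {ψ : G → ℂ // ψ ∈ Bl M (⊤ : Subgroup G) θ ∧ PR m ψ} := Fintype.ofFinite _
  have hRD : RG M D θ ⊆ (D : Set G) := fun u hu => hu.1
  -- the conjugation by the elements of `T`
  have hTD : ∀ t ∈ TT M D θ, ∀ d ∈ D, t * d * t⁻¹ ∈ D := fun t ht d hd =>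
    (Subgroup.mem_normalizer_iff.1 ht.1 d).1 hd
  -- the set of the elements which are regular modulo `K`
  set W : Set D := {u : D | ∀ t ∈ TT M D θ, t * (u : G) * t⁻¹ * (u : G)⁻¹ ∈ K → t ∈ cz D} with hW
  have hWR : ∀ u ∈ W, (u : G) ∈ RG M D θ := by
    intro u hu1
    refine ⟨u.2, fun t ht htu => hu1 t ht ?_⟩
    rw [htu, mul_inv_cancel_right, mul_inv_cancel]
    exact K.one_mem
  -- the index
  set q : ℕ := K.relIndex D with hq
  have hq0 : 0 < q := Nat.pos_of_ne_zero Subgroup.FiniteIndex.index_ne_zero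
  have hLW : LGC (W.indicator (fun _ => (q : ℂ))) := by
    set J : Type := {t : G // t ∈ TT M D θ ∧ t ∉ cz D} with hJ
    obtain ⟨N, ⟨e⟩⟩ := Finite.exists_equiv_fin J
    have h3 := BUX_puh hPUH hcom (K.subgroupOf D) N
      (fun i => BUX_H D K hR.com hKD (e.symm i).1 (hTD _ (e.symm i).2.1)) (by
        intro i k hk
        have hk' : (k : G) ∈ K := Subgroup.mem_subgroupOf.1 hk
        exact K.mul_mem (hKT _ (e.symm i).2.1 _ hk') (K.inv_mem hk'))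
    have h4 : {u : D | ∃ i, u ∈ BUX_H D K hR.com hKD (e.symm i).1 (hTD _ (e.symm i).2.1)}ᶜ = W := by
      ext u
      constructor
      · intro h5 t ht htu
        by_contra hcon
        exact h5 ⟨e ⟨t, ht, hcon⟩, by
          show ((e.symm (e ⟨t, ht, hcon⟩)).1 : G) * (u : G) * ((e.symm (e ⟨t, ht, hcon⟩)).1 : G)⁻¹ * (u : G)⁻¹ ∈ K
          rw [Equiv.symm_apply_apply]
          exact htu⟩
      · rintro h5 ⟨i, hi⟩
        exact (e.symm i).2.2 (h5 _ (e.symm i).2.1 hi)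
    rw [h4] at h3
    exact h3
  -- powers
  have hWp : ∀ u : D, ∀ s : ℕ, ¬ p ∣ s → (u ^ s ∈ W ↔ u ∈ W) := by
    have hone : ∀ (u : D) (s : ℕ) (t : G), t ∈ TT M D θ → t * (u : G) * t⁻¹ * (u : G)⁻¹ ∈ K →
        t * ((u ^ s : D) : G) * t⁻¹ * ((u ^ s : D) : G)⁻¹ ∈ K := by
      intro u s t ht h3
      exact (BUX_H D K hR.com hKD t (hTD t ht)).pow_mem (x := u) h3 s
    intro u s hs
    constructor
    · intro h3 t ht htu
      exact h3 t ht (hone u s t ht htu)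
    · intro h3 t ht htu
      refine h3 t ht ?_
      obtain ⟨k, hk⟩ := hpg u
      have hcop : Nat.Coprime s (orderOf u) := by
        refine Nat.Coprime.coprime_dvd_right (orderOf_dvd_of_pow_eq_one hk) ?_
        exact (Nat.Coprime.pow_left k ((Nat.Prime.coprime_iff_not_dvd hM.pr).2 hs)).symm
      obtain ⟨j, hj⟩ := exists_pow_eq_self_of_coprime hcop
      have h4 := hone (u ^ s) j t ht htu
      rwa [hj] at h4
  have key := BDX_dec hDEC hLCG hM.pr (D := D) hcom hpg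
    {ψ : G → ℂ // ψ ∈ Bl M (⊤ : Subgroup G) θ ∧ PR m ψ} 0 (q ^ 2 * iI M D θ) (fun i => i.elim0)
    (fun ψ u => W.indicator
        (fun u : D => (q : ℂ) * ((ε u : ℂ) * dd M (Cz (⊤ : Subgroup G) (u : G)) θ ψ u)) u)
    (Nat.mul_pos (pow_pos hq0 2) r5) (fun i => i.elim0) (fun ψ u hu => hu.choose.elim0) ?_ ?_ ?_ ?_
  · have k1 : {ψ : G → ℂ | ψ ∈ Bl M (⊤ : Subgroup G) θ ∧ PR m ψ}.ncard =
        Fintype.card {ψ : G → ℂ // ψ ∈ Bl M (⊤ : Subgroup G) θ ∧ PR m ψ} := by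
      rw [← Nat.card_coe_set_eq]
      exact Nat.card_eq_fintype_card (α := {ψ : G → ℂ // ψ ∈ Bl M (⊤ : Subgroup G) θ ∧ PR m ψ})
    have k2 : {u : G | u ∈ D ∧ orderOf u ≤ 4 * p * (q ^ 2 * iI M D θ)}.ncard =
        Nat.card {u : D // orderOf u ≤ 4 * p * (q ^ 2 * iI M D θ)} := by
      rw [← Nat.card_coe_set_eq]
      refine Nat.card_congr ⟨fun u => ⟨⟨u.1, u.2.1⟩, ?_⟩, fun u => ⟨u.1.1, u.1.2, ?_⟩, fun u => rfl, fun u => rfl⟩
      · rw [Subgroup.orderOf_mk]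
        exact u.2.2
      · rw [Subgroup.orderOf_coe]
        exact u.2
    rw [k1, k2]
    exact key
  · -- integrality
    intro ψ F hF _
    obtain ⟨m', hm'⟩ := e3 ψ ψ.2.1 (fun u => W.indicator (fun _ => (q : ℂ)) u * F u) (BUX_mul hLCG hcom hLW hF) (by
      intro u hu1
      have h3 : u ∉ W := fun h3 => hu1 (hWR u h3)
      show W.indicator (fun _ => (q : ℂ)) u * F u = 0
      rw [Set.indicator_of_notMem h3, zero_mul])
    refine ⟨m', ?_⟩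
    rw [← hm']
    refine finsum_congr fun u => ?_
    by_cases hu1 : u ∈ W
    · rw [Set.indicator_of_mem hu1, Set.indicator_of_mem (show u ∈ {u : D | (u : G) ∈ RG M D θ} from hWR u hu1),
        Set.indicator_of_mem hu1, map_mul, Complex.conj_natCast]
      ring
    · rw [Set.indicator_of_notMem hu1, Set.indicator_of_notMem hu1, zero_mul, zero_mul, map_zero, mul_zero]
  · -- Bessel
    intro a
    have h3 := hBES' (fun ψ => if hψ : ψ ∈ Bl M (⊤ : Subgroup G) θ ∧ PR m ψ then a ⟨ψ, hψ⟩ else 0)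
    have h4 : ∑ᶠ ψ ∈ Bl M (⊤ : Subgroup G) θ, ‖(if hψ : ψ ∈ Bl M (⊤ : Subgroup G) θ ∧ PR m ψ then a ⟨ψ, hψ⟩ else 0)‖ ^ 2 =
        ∑ ψ, ‖a ψ‖ ^ 2 := by
      refine BDX_ext (PR m) (fun ψ => ‖a ψ‖ ^ 2) _ ?_ ?_
      · intro ψ
        rw [dif_pos ψ.2]
      · intro ψ _ hP
        rw [dif_neg (fun hψ => hP hψ.2), norm_zero]
        norm_num
    rw [h4] at h3
    have h5 : ∀ u : G, ∑ᶠ ψ ∈ Bl M (⊤ : Subgroup G) θ, (if hψ : ψ ∈ Bl M (⊤ : Subgroup G) θ ∧ PR m ψ then a ⟨ψ, hψ⟩ else 0) *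
        dd M (Cz (⊤ : Subgroup G) u) θ ψ u = ∑ ψ : {ψ : G → ℂ // ψ ∈ Bl M (⊤ : Subgroup G) θ ∧ PR m ψ},
          a ψ * dd M (Cz (⊤ : Subgroup G) u) θ ψ u := by
      intro u
      refine BDX_ext (PR m) (fun ψ => a ψ * dd M (Cz (⊤ : Subgroup G) u) θ ψ u) _ ?_ ?_
      · intro ψ
        rw [dif_pos ψ.2]
      · intro ψ _ hP
        rw [dif_neg (fun hψ => hP hψ.2), zero_mul]
    simp only [h5] at h3
    rw [← BDX_sum D (RG M D θ) hRD] at h3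
    have h6 : ∀ u : D, ‖∑ ψ : {ψ : G → ℂ // ψ ∈ Bl M (⊤ : Subgroup G) θ ∧ PR m ψ}, a ψ * W.indicator
        (fun u : D => (q : ℂ) * ((ε u : ℂ) * dd M (Cz (⊤ : Subgroup G) (u : G)) θ ψ u)) u‖ ^ 2 ≤
        (q : ℝ) ^ 2 * (Subtype.val ⁻¹' RG M D θ).indicator (fun u : D => ‖∑ ψ : {ψ : G → ℂ // ψ ∈ Bl M (⊤ : Subgroup G) θ ∧ PR m ψ},
          a ψ * dd M (Cz (⊤ : Subgroup G) (u : G)) θ ψ u‖ ^ 2) u := by
      intro u
      by_cases hu1 : u ∈ W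
      · rw [Set.indicator_of_mem (show u ∈ Subtype.val ⁻¹' RG M D θ from hWR u hu1)]
        simp only [Set.indicator_of_mem hu1]
        have h7 : ∑ ψ : {ψ : G → ℂ // ψ ∈ Bl M (⊤ : Subgroup G) θ ∧ PR m ψ},
            a ψ * ((q : ℂ) * ((ε u : ℂ) * dd M (Cz (⊤ : Subgroup G) (u : G)) θ ψ u)) =
            (q : ℂ) * ((ε u : ℂ) * ∑ ψ : {ψ : G → ℂ // ψ ∈ Bl M (⊤ : Subgroup G) θ ∧ PR m ψ},
              a ψ * dd M (Cz (⊤ : Subgroup G) (u : G)) θ ψ u) := by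
          rw [Finset.mul_sum, Finset.mul_sum]
          exact Finset.sum_congr rfl fun ψ _ => by ring
        rw [h7, norm_mul, norm_mul]
        have h8 : ‖((ε u : ℤ) : ℂ)‖ = 1 := by
          rcases e1 u with h8 | h8
          · rw [h8]; simp
          · rw [h8]; simp
        rw [h8, one_mul, mul_pow, Complex.norm_natCast]
      · simp only [Set.indicator_of_notMem hu1, mul_zero, Finset.sum_const_zero, norm_zero]
        have h9 : (0 : ℝ) ≤ (Subtype.val ⁻¹' RG M D θ).indicator (fun u : D => ‖∑ ψ : {ψ : G → ℂ // ψ ∈ Bl M (⊤ : Subgroup G) θ ∧ PR m ψ},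
          a ψ * dd M (Cz (⊤ : Subgroup G) (u : G)) θ ψ u‖ ^ 2) u := Set.indicator_nonneg (fun _ _ => by positivity) u
        have h10 : (0 : ℝ) ^ 2 = 0 := by norm_num
        rw [h10]
        positivity
    have h7 : ∑ᶠ u : D, ‖∑ ψ : {ψ : G → ℂ // ψ ∈ Bl M (⊤ : Subgroup G) θ ∧ PR m ψ}, a ψ * W.indicator
        (fun u : D => (q : ℂ) * ((ε u : ℂ) * dd M (Cz (⊤ : Subgroup G) (u : G)) θ ψ u)) u‖ ^ 2 ≤
        ∑ᶠ u : D, (q : ℝ) ^ 2 * (Subtype.val ⁻¹' RG M D θ).indicator (fun u : D => ‖∑ ψ : {ψ : G → ℂ // ψ ∈ Bl M (⊤ : Subgroup G) θ ∧ PR m ψ},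
          a ψ * dd M (Cz (⊤ : Subgroup G) (u : G)) θ ψ u‖ ^ 2) u := by
      let _ : Fintype D := Fintype.ofFinite D
      rw [finsum_eq_sum_of_fintype, finsum_eq_sum_of_fintype]
      exact Finset.sum_le_sum fun u _ => h6 u
    refine h7.trans ?_
    rw [← mul_finsum]
    refine (mul_le_mul_of_nonneg_left h3 (by positivity)).trans (le_of_eq ?_)
    push_cast
    ring
  · -- nonvanishing
    intro ψ
    have hW0 : (⟨u₀, hu₀⟩ : D) ∈ W := fun t ht htu => hu t ht htu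
    refine ⟨⟨u₀, hu₀⟩, ?_⟩
    rw [Set.indicator_of_mem hW0]
    have h3 := hNZ3 p M hM G D x θ χ hR ⊥ bot_le u₀ hu₀ (hGRG p M hM hp G D x θ χ h u₀ (hWR _ hW0)).2 ψ
      (by rw [hcz]; exact ψ.2.1)
    rw [hcz] at h3
    refine mul_ne_zero (Nat.cast_ne_zero.2 hq0.ne') (mul_ne_zero ?_ h3)
    rcases e1 u₀ with h8 | h8
    · show ((ε u₀ : ℤ) : ℂ) ≠ 0
      rw [h8]; simp
    · show ((ε u₀ : ℤ) : ℂ) ≠ 0
      rw [h8]; simp
  · -- the power map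
    intro ψ u s hs
    have hps : ¬ p ∣ s := by
      intro hd
      have h3 : s ≡ 0 [MOD p] := (Nat.modEq_zero_iff_dvd).2 hd
      have h4 : 1 ≡ 0 [MOD p] := hs.symm.trans h3
      have h5 := (Nat.modEq_zero_iff_dvd).1 h4
      exact hM.pr.one_lt.not_ge (Nat.le_of_dvd one_pos h5)
    have hiff := hWp u s hps
    change W.indicator
        (fun u : D => (q : ℂ) * ((ε u : ℂ) * dd M (Cz (⊤ : Subgroup G) (u : G)) θ ψ u)) (u ^ s) = W.indicator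
        (fun u : D => (q : ℂ) * ((ε u : ℂ) * dd M (Cz (⊤ : Subgroup G) (u : G)) θ ψ u)) u
    by_cases hu1 : u ∈ W
    · rw [Set.indicator_of_mem hu1, Set.indicator_of_mem (hiff.2 hu1)]
      rw [Subgroup.coe_pow]
      obtain ⟨k, hk⟩ := hpg u
      have hPE : PEl p (u : G) := ⟨k, by
        have h3 := congrArg (Subtype.val) hk
        simpa using h3⟩
      have h3 := hDP2 p M hM G D θ m hm u hPE (hGRG p M hM hp G D x θ χ h u (hWR u hu1)).1 ψ ψ.2.1.1 ψ.2.2 s hs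
      rw [h3, e2 u (hWR u hu1) s hps]
    · rw [Set.indicator_of_notMem hu1, Set.indicator_of_notMem (fun h3 => hu1 (hiff.1 h3))]

/-- **Row BUX** -/
theorem BUX (hPUH : PUH_stmt) (hDEC : DEC_stmt) (hSGL : SGL_stmt) (hDP2 : DP2_stmt) (hBES : BES4_stmt) (hNZ3 : NZ3_stmt)
    (hGRG : GRG_stmt) (hRGF : RGF_stmt) (hLCG : LCG_stmt) (hTPR : FI.TPR_stmt) : BUX_stmt := by
  intro p M hM hp G _ _ D x θ χ h K hKD hKT u₀ hu₀ hu m hm
  exact BUX_main hPUH hDEC hSGL hDP2 hBES hNZ3 hGRG hRGF hLCG hTPR p M hM hp G D x θ χ h K hKD hKT u₀ hu₀ hu m hm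

end Pool.Agent.LE
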