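import Mathlib
import Pool.Agent.helper12.LE.SpecB
import Pool.Agent.helper70.LE.Defs3
import Pool.Agent.helper95.LE.ALLB

/-!
# Project RB (MP_baa4d7_al): blocks with abelian defect group of bounded rank, regular orbit of the inertial quotient

THEOREM. For every odd prime `p` and every `r` there is `N` such that for every finite group `G` with `O_p(G) = 1` and every block `B` with abelian defect group `D` of rank at most `r` and exponent at least `p ^ N` on which the inertial quotient `I` has a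
regular orbit (for instance `I` abelian), the sum over `d` of the alternating sums is zero; and `l(B) ≤ F(p, r)` for every `G`.

PROOF. `K = D ^ (p ^ s)`, `q = |D : K|`, `U` the set of the `u ∈ D` with `u⁻¹ t(u) ∉ K` for all `t ≠ 1` in `I`: it is not empty for some `s ≤ WS p r` (WIN). `q 1_U` is an integral combination of characters of `D` (PUH) which vanishes outside the regular elements. So by SGL `q 1_U ε dd ψ` is an integral combination of characters of `D`, with the
sum of the squares of the coefficients at most `q ^ 2 |I|`, and for `ψ` fixed by the automorphisms `s ≡ 1` modulo `p` these characters have order at most `4 p q ^ 2 |I|` (DEC with no subgroups): `|X| ≤ 4 q ^ 2 |I| #{u ∈ D | o(u) ≤ 4 p q ^ 2 |I|}` (BUX). The right hand side is at most `FB p r` (NUM). `l(B) ≤ |X|` (BDA_le), and FinG_dade.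

RULES. File `Pool/Agent/<seat>/RB/XXX.lean`, `import Pool.Agent.helper24.RB.Spec`, namespace `Pool.Agent.LE`, the `open` line below, auxiliary lemmas prefixed `XXX_`, no sorry, no double quotes in the file, no `convert`, no `congr!`. The rows named in the docstring are hypotheses (exact line in the lock note);
all rows of the earlier specs (proved) may be added as further hypotheses at the end.
-/

set_option autoImplicit false

namespace Pool.Agent.LE

open Pool.Agent.helper58.DC Pool.Agent.DI Pool.Agent.GR Pool.Agent.OB Pool.Agent.DR Pool.Agent.FI Pool.Agent.FI3 Pool.Agent.FI4 Pool.Agent.FI4C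

/-! ## 1. Pure rows -/

/-- **PUH** (short to medium; pure; from LCG). The function `|D : K|` outside of finitely many subgroups `H i ≥ K`, `0` on them, is an integral combination of characters. Proof: more generally for every subgroup `H ≥ K` the function `|D : K|` on `H` outside of the `H i`, `0` elsewhere, is `LGC`; induction on `N` (all `H` at once):
`1_(H, H 0, .., H N) = 1_(H, H 0, .., H (N - 1)) - 1_(H ⊓ H N, H 0, .., H (N - 1))`. `N = 0`: `|D : K| 1_H = |H : K| * ∑_(l = 1 on H) lv l` (`|D : K| = |D : H| |H : K|`; the number of the characters which are `1` on `H` is `|D : H|`, and their sum at `u ∉ H` is `0`: the characters of `D ⧸ H`, orthogonality as `sum_lv_lv` / `KCS`). -/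
def PUH_stmt : Prop :=
  ∀ (D : Type) [CommGroup D] [Finite D] (K : Subgroup D) (N : ℕ) (H : Fin N → Subgroup D), (∀ i, K ≤ H i) →
    LGC ({u : D | ∃ i, u ∈ H i}ᶜ.indicator (fun _ => (K.index : ℂ)))

/-- The windows. -/
def WSq (p r : ℕ) : ℕ → ℕ
  | 0 => 0
  | k + 1 => r * WSq p r k + (ALL_c p r + 1)

/-- The bound for the level. -/
def WS (p r : ℕ) : ℕ := WSq p r (ALL_c p r + 1)

/-- **WIN** (medium; pure; only `ALLA`, `ALLB`). If `P` has a regular orbit on `A` then it has one on `A / A ^ (p ^ s)` for some `s ≤ WS p r`. Proof: `n = |P| ≤ ALL_c p r =: n₀` (`ALL_ord`, as in `ALL_abs2`: `(ALL_F p P).index` divides the index `p ^ d ≤ p ^ r` of the `p`-th powers; `ALL_c` is monotone: `ALL_c_mono`).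
For `φ ∈ P`, `φ ≠ 1`, call `φ` SMALL at level `s` if `ALL_del φ w ^ p ^ s = 1` for all `w`. The number `g s` of the small `φ` is monotone in `s` and `≤ n₀`, so there is `k ≤ n₀` with `g (s_k) = g (s_(k + 1))`, `s_k = WSq p r k` (monotone in `k`, as `r ≥ 1`; if `r = 0` then `A` is trivial and `s = 0` works for `P = 1`). Let `s = s_k`, `s' = s_(k + 1) = r s + (n₀ + 1)`. No `φ` is small at `s'` and not small at `s`.
CLAIM: `s'` works. Let `u₀` be regular. The elements `u₀ v`, `v ∈ K = A ^ (p ^ s)`: for `φ` small at `s` `ALL_del φ v = 1`, so `ALL_del φ (u₀ v) = ALL_del φ u₀ ≠ 1`, and it is not a `p ^ s'`-th power: if `ALL_del φ u₀ = z ^ p ^ s'` then by `ALL_core` (`e = |P|`) `(z ^ p ^ s') ^ e = ALL_del φ y ^ p ^ s' = 1`, so `ALL_del φ u₀ ^ e = 1`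
with `p ∤ e`, hence `ALL_del φ u₀ = 1`. For `φ` not small at `s'` there is a witness `w` with `ALL_del φ w ^ p ^ (s' - 1) ≠ 1` (even `ALL_del φ w ^ p ^ s' ≠ 1`): by `ALL_kix` at most `|A| / p ^ s'` elements `u` have `ALL_del φ u` a `p ^ s'`-th power; in total at most `(n₀ - 1) |A| / p ^ s' < |A| / p ^ (r s) ≤ |K|`
(`|A : K| = |A[p ^ s]| ≤ p ^ (r s)`: `ALL_idx`, `ALL_om`; `n₀ < p ^ (n₀ + 1)`). So some `u = u₀ v` works. -/
def WIN_stmt : Prop :=
  ∀ (p r : ℕ), p.Prime → ∀ (A : Type) [CommGroup A] [Finite A], IsPGroup p A →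
    Nat.card (powMonoidHom p : A →* A).ker ≤ p ^ r → ∀ P : Subgroup (MulAut A), ¬ p ∣ Nat.card P →
    (∃ u : A, ∀ φ ∈ P, φ u = u → φ = 1) →
    Nat.card P ≤ ALL_c p r ∧ ∃ s : ℕ, s ≤ WS p r ∧ ∃ u : A, ∀ φ ∈ P, φ ≠ 1 → ¬ ∃ v : A, v ^ p ^ s = ALL_del φ u

/-- The bound for `l(B)`. -/
def FB (p r : ℕ) : ℕ :=
  4 * ((p ^ (r * WS p r)) ^ 2 * ALL_c p r) * (p ^ r) ^ (4 * p * ((p ^ (r * WS p r)) ^ 2 * ALL_c p r))

/-- **NUM** (short to medium; pure; `ALL_idx`, `ALL_om`). Proof: `K = A ^ (p ^ s)` has index `|A[p ^ s]| ≤ (p ^ r) ^ s ≤ p ^ (r WS)`. `q ^ 2 n ≤ (p ^ (r WS)) ^ 2 ALL_c p r =: m`. An element of order `≤ 4 p m` of the `p`-group `A` has order `p ^ i ≤ 4 p m`, so `i ≤ 4 p m` and it is in `A[p ^ (4 p m)]`, which has at most `(p ^ r) ^ (4 p m)` elements. -/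
def NUM_stmt : Prop :=
  ∀ (p r : ℕ), p.Prime → ∀ (A : Type) [CommGroup A] [Finite A], IsPGroup p A →
    Nat.card (powMonoidHom p : A →* A).ker ≤ p ^ r → ∀ s n : ℕ, s ≤ WS p r → n ≤ ALL_c p r →
    4 * ((powMonoidHom (p ^ s) : A →* A).range.index ^ 2 * n) *
      Nat.card {u : A // orderOf u ≤ 4 * p * ((powMonoidHom (p ^ s) : A →* A).range.index ^ 2 * n)} ≤ FB p r

/-! ## 2. The bound -/

/-- **BUX** (medium; from PUH, DEC, SGL, DP2, BES4, NZ3, GRG, RGF, LCG, TPR; ADAPTATION of BDX, `Pool/Agent/helper18/LE/BDX.lean`). `K ≤ D` a `T`-invariant subgroup, `u₀ ∈ D` with `t u₀ t⁻¹ u₀⁻¹ ∉ K` for all `t ∈ T`, `t ∉ cz D`. -/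
def BUX_stmt : Prop :=
  ∀ (p : ℕ) (M : Ideal (integralClosure ℤ ℂ)), Setup p M → p ≠ 2 → ∀ (G : Type) [Group G] [Finite G]
    (D : Subgroup G) (x : G) (θ χ : G → ℂ), LoA p M D x θ χ → ∀ K : Subgroup G, K ≤ D →
    (∀ t ∈ TT M D θ, ∀ k ∈ K, t * k * t⁻¹ ∈ K) → ∀ u₀ ∈ D, (∀ t ∈ TT M D θ, t * u₀ * t⁻¹ * u₀⁻¹ ∈ K → t ∈ cz D) →
    ∀ m : ℕ, Gm2 p (Nat.card G) m →
    {ψ : G → ℂ | ψ ∈ Blk M χ (⊤ : Subgroup G) ∧ PR m ψ}.ncard ≤
      4 * (K.relIndex D ^ 2 * iI M D θ) * {u : G | u ∈ D ∧ orderOf u ≤ 4 * p * (K.relIndex D ^ 2 * iI M D θ)}.ncard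

/-! ## 3. The hypothesis -/

/-- The rank of `D` is at most `r` (at most `p ^ r` elements of order dividing `p`), and `T / cz D` has a regular orbit on `D`. -/
def HRB (p r : ℕ) : HP := fun _ _ _ D T => {u | u ∈ D ∧ u ^ p = 1}.ncard ≤ p ^ r ∧ ∃ u, u ∈ RGT D T

/-- **HRR** (short; compare `helper58/LE/HHE.lean`: `HHE_regS`, `HHE_regC`). -/
def HRR_stmt : Prop := ∀ p r : ℕ, p.Prime → Her p (HRB p r)

/-- **BDR** (medium; from WIN, NUM, BUX and the hypotheses LOA, GM2, CNL, LLN, TPR of `BDA_le`; `ALT_inst`, `ALT_rho`, `ALT_card`, `ALT_ker` of `helper95/LE/ALLT.lean`). Proof: `BDA_le`: `m`, `l`, `1 ≤ l ≤ |X|`. `A = D` with the commutative structure `ALT_inst`, `P = (ALT_rho D T).range`, `|P| = iI`; WIN: `s`, `u`.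
`K = (powMonoidHom (p ^ s)).range.map D.subtype`, `u₀ = u`; BUX; NUM. -/
def BDR_stmt : Prop :=
  ∀ (p : ℕ) (M : Ideal (integralClosure ℤ ℂ)), Setup p M → p ≠ 2 → ∀ r : ℕ, BDH p M (HRB p r) (FB p r)

end Pool.Agent.LE
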